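import Mathlib
import Pool.Agent.H.MP_f15a68_nt.B

namespace Pool.Agent.Results.MP_f15a68_nt.Q1

/-- The field of totally `p`-adic numbers: generated by (in fact equal to) the set of algebraic
numbers whose minimal polynomial splits over `ℚ_p`. -/
noncomputable def Qtp (p : ℕ) [Fact p.Prime] : IntermediateField ℚ (AlgebraicClosure ℚ) :=
  IntermediateField.adjoin ℚ {x | ((minpoly ℚ x).map (algebraMap ℚ ℚ_[p])).Splits}

/-- First accumulation point of heights on `S`: the infimum (in the extended reals) of all real `c`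
such that infinitely many `α ∈ S` have absolute logarithmic Weil height `< c`. -/
noncomputable def liminfH (S : Set (AlgebraicClosure ℚ)) : EReal :=
  sInf {e : EReal | ∃ c : ℝ, e = c ∧ {α ∈ S | NumberField.absLogHeight₁ α < c}.Infinite}

noncomputable def Lint (p : ℕ) [Fact p.Prime] (n : ℕ) : EReal :=
  liminfH {α | IsIntegral ℤ α ∧ (minpoly (Qtp p) α).natDegree = n}

theorem result : ∃ (p : ℕ) (_ : Fact p.Prime) (n : ℕ), 1 ≤ n ∧
    Lint p n < ((1 / ((p : ℝ) - 1) * (Real.log p / n) : ℝ) : EReal) := by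
  have hl : 0 < Real.log 5 := Real.log_pos (by norm_num)
  refine ⟨5, inferInstance, 1, le_rfl, lt_of_le_of_lt (b := ((41 / 200 * Real.log 5 : ℝ) : EReal))
    (sInf_le ⟨_, rfl, Pool.Agent.H.MP_f15a68_nt.main'.mono fun x hx => ⟨⟨hx.1, ?_⟩, ?_⟩⟩) ?_⟩
  · refine minpoly.natDegree_eq_one_iff.2 ⟨⟨x, IntermediateField.subset_adjoin ℚ _ ?_⟩, rfl⟩
    exact Polynomial.splits_iff_card_roots.2 (hx.2.1.trans (Polynomial.natDegree_map _).symm)
  · rw [Pool.Agent.H.MP_f15a68_nt.abs_eq_mahler x hx.1]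
    exact lt_of_le_of_lt hx.2.2 (by linarith)
  · rw [EReal.coe_lt_coe_iff]
    push_cast
    linarith

end Pool.Agent.Results.MP_f15a68_nt.Q1
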